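import Pool.Agent.Q23.AS.N3

set_option autoImplicit false

noncomputable section

namespace Pool.Agent.Results.MP_54e5d7_al.ClosedValueSets

/-- The kernel of right multiplication by the matrix `A` on `ℓ²(G)^m`. -/
def kernel {G : Type} [Group G] {m n : ℕ} (A : Matrix (Fin m) (Fin n) (G →₀ ℂ)) :
    Set (lp (fun _ : Fin m × G => ℂ) 2) :=
  {x | ∀ (j : Fin n) (g : G),
    ∑ i : Fin m, (A i j).sum (fun h c => x (i, g * h⁻¹) * c) = 0}

open Classical in
/-- The von Neumann dimension of this kernel: the sum over `i` of one minus the squared distance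
from the basis vector at `(i, 1)` to the kernel, that is, the trace of the projection onto the
kernel. -/
def kerDim {G : Type} [Group G] {m n : ℕ} (A : Matrix (Fin m) (Fin n) (G →₀ ℂ)) : ℝ :=
  ∑ i : Fin m, (1 - (Metric.infDist
    (lp.single 2 (i, (1 : G)) (1 : ℂ) : lp (fun _ : Fin m × G => ℂ) 2) (kernel A)) ^ 2)

/-- The member with parameters `z` of a family of matrices over `ℂ[G]` whose coefficients are
polynomials in `N` parameters. -/
def member {G : Type} {m n N : ℕ} (A : Matrix (Fin m) (Fin n) (G →₀ MvPolynomial (Fin N) ℂ))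
    (z : Fin N → ℂ) : Matrix (Fin m) (Fin n) (G →₀ ℂ) :=
  fun i j => (A i j).mapRange (fun p => MvPolynomial.eval z p) (map_zero _)

/-- The `k`-th derived set (Cantor-Bendixson derivative) of a set of real numbers. -/
def derived (k : ℕ) (V : Set ℝ) : Set ℝ := (derivedSet : Set ℝ → Set ℝ)^[k] V

/-- `V` is compact, every nonempty subset of `V` has a largest element, and the `k`-th derived set
of `V` contains at most the smallest element of `V`. -/
def Tame (k : ℕ) (V : Set ℝ) : Prop :=
  IsCompact V ∧ (∀ W ⊆ V, W.Nonempty → ∃ x, IsGreatest W x) ∧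
    ∃ v, IsLeast V v ∧ derived k V ⊆ {v}

open Pool.Agent

theorem kerDim_eq_kT {G : Type} [Group G] {m n : ℕ} (T : Finset G)
    (A : Matrix (Fin m) (Fin n) (G →₀ ℂ)) (hT : ∀ i j, (A i j).support ⊆ T) :
    kerDim A = Q23.AS.kT T (W649.ZL.coefT T A) := by
  unfold Q23.AS.kT
  rw [← W649.ZL.kerDimM_eq, W649.ZL.matM_coefT T A hT]
  unfold kerDim W649.ZL.kerDimM
  have h1 : kernel A = W649.ZL.kernM A := rfl
  rw [h1]

theorem kT_nonneg {G : Type} [Group G] {m n : ℕ} (T : Finset G) (p : T × Fin m × Fin n → ℂ) :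
    0 ≤ Q23.AS.kT T p := by
  unfold Q23.AS.kT W649.ZL.kd
  exact W649.ZL.vd_nonneg _

theorem kT_le {G : Type} [Group G] {m n : ℕ} (T : Finset G) (p : T × Fin m × Fin n → ℂ) :
    Q23.AS.kT T p ≤ m := by
  have h := W649.ZL.vd_le_card (LinearMap.ker (W649.ZL.lin (W649.ZL.famR
    (fun i : T × Fin m × Fin n => (i.1 : G)) (fun i => i.2.1) (fun i => i.2.2)) p :
      W649.ZL.EE G (Fin m) →ₗ[ℂ] W649.ZL.EE G (Fin n)))
  rw [Fintype.card_fin] at h
  exact h

theorem tame_range {ι : Type} [Fintype ι] {K : (ι → ℂ) → ℝ} (hK : Q23.AS.USC K) (m : ℕ)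
    (h0 : ∀ x, 0 ≤ K x) (h1 : ∀ x, K x ≤ m) : Tame (Fintype.card ι) (Set.range K) := by
  refine ⟨?_, ?_, ?_⟩
  · refine (isCompact_Icc (a := (0 : ℝ)) (b := m)).of_isClosed_subset hK.isClosed_range ?_
    rintro _ ⟨x, rfl⟩
    exact ⟨h0 x, h1 x⟩
  · intro W hW hne
    obtain ⟨w, hw⟩ := hne
    obtain ⟨p, hp⟩ := hW hw
    obtain ⟨q, hq, hmax⟩ := hK.acc {x | K x ∈ W} ⟨p, by show K p ∈ W; rw [hp]; exact hw⟩
    refine ⟨K q, hq, ?_⟩
    intro y hy
    obtain ⟨x, rfl⟩ := hW hy
    exact hmax x hy
  · obtain ⟨x0, hx0, hr⟩ := hK.rank_range 0 h0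
    exact ⟨K x0, ⟨⟨x0, rfl⟩, by rintro _ ⟨y, rfl⟩; exact hx0 y⟩, hr⟩

theorem support_bound {G : Type} {m n : ℕ} {R : Type} [Zero R]
    (A : Matrix (Fin m) (Fin n) (G →₀ R)) : ∃ T : Finset G, ∀ i j, (A i j).support ⊆ T := by
  classical
  refine ⟨Finset.univ.biUnion fun i => Finset.univ.biUnion fun j => (A i j).support, ?_⟩
  intro i j x hx
  exact Finset.mem_biUnion.2 ⟨i, Finset.mem_univ _, Finset.mem_biUnion.2
    ⟨j, Finset.mem_univ _, hx⟩⟩

/-- **Value sets of kernel dimensions.** Let `G` be any group, let `A` be an `m × n` matrix over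
`ℂ[G]` whose coefficients are polynomials in `N` complex parameters, and let `V` be the set of the von
Neumann dimensions of the kernels of its members. Then `V` is compact, every nonempty subset of `V`
has a largest element, and the `N`-th derived set of `V` contains at most the smallest element of
`V`; in particular the derived set of order `N + 1` is empty.

If the parameters are the coefficients of the entries at the elements of a finite subset `T` of `G`,
then `N = |T| m n` and `V` is the set of the kernel dimensions of all `m × n` matrices over `ℂ[G]`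
with entries supported in `T`. -/
theorem result (G : Type) [Group G] (N m n : ℕ)
    (A : Matrix (Fin m) (Fin n) (G →₀ MvPolynomial (Fin N) ℂ)) :
    Tame N {r : ℝ | ∃ z : Fin N → ℂ, kerDim (member A z) = r} := by
  classical
  obtain ⟨T, hT⟩ := support_bound A
  have h1 : ∀ z : Fin N → ℂ, kerDim (member A z) = Q23.AS.kT T
      (fun i => MvPolynomial.aeval z (A i.2.1 i.2.2 i.1)) := by
    intro z
    rw [kerDim_eq_kT T]
    · rfl
    · intro i j
      exact Finsupp.support_mapRange.trans (hT i j)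
  have h2 := tame_range ((Q23.AS.usc_kT (m := m) (n := n) T).comp
    (fun i => A i.2.1 i.2.2 i.1)) m (fun z => kT_nonneg T _) (fun z => kT_le T _)
  rw [Fintype.card_fin] at h2
  have h3 : {r : ℝ | ∃ z : Fin N → ℂ, kerDim (member A z) = r}
      = Set.range (fun z : Fin N → ℂ => Q23.AS.kT T
        (fun i => MvPolynomial.aeval z (A i.2.1 i.2.2 i.1))) := by
    ext r
    constructor
    · rintro ⟨z, rfl⟩
      exact ⟨z, (h1 z).symm⟩
    · rintro ⟨z, rfl⟩
      exact ⟨z, h1 z⟩
  rw [h3]
  exact h2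

end Pool.Agent.Results.MP_54e5d7_al.ClosedValueSets
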