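import Pool.Agent.Q23.AS.N3

set_option autoImplicit false

noncomputable section

namespace Pool.Agent.Results.MP_54e5d7_al.ExcessInequality

/-- The kernel of right multiplication by the matrix `A` on `ℓ²(G)^m`. -/
def kernel {G : Type} [Group G] {m n : ℕ} (A : Matrix (Fin m) (Fin n) (G →₀ ℂ)) :
    Set (lp (fun _ : Fin m × G => ℂ) 2) :=
  {x | ∀ (j : Fin n) (g : G),
    ∑ i : Fin m, (A i j).sum (fun h c => x (i, g * h⁻¹) * c) = 0}

open Classical in
/-- The von Neumann dimension of this kernel: the sum over `i` of one minus the squared distance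
from the basis vector at `(i, 1)` to the kernel, that is, the trace of the projection onto the
kernel. -/
def kerDim {G : Type} [Group G] {m n : ℕ} (A : Matrix (Fin m) (Fin n) (G →₀ ℂ)) : ℝ :=
  ∑ i : Fin m, (1 - (Metric.infDist
    (lp.single 2 (i, (1 : G)) (1 : ℂ) : lp (fun _ : Fin m × G => ℂ) 2) (kernel A)) ^ 2)

/-- The member with parameter `z` of a family of matrices over `ℂ[G]` whose coefficients are
polynomials in one variable. -/
def member {G : Type} {m n : ℕ} (A : Matrix (Fin m) (Fin n) (G →₀ Polynomial ℂ))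
    (z : ℂ) : Matrix (Fin m) (Fin n) (G →₀ ℂ) :=
  fun i j => (A i j).mapRange (fun p => Polynomial.eval z p) Polynomial.eval_zero

open Pool.Agent

theorem kerDim_eq_kT {G : Type} [Group G] {m n : ℕ} (T : Finset G)
    (A : Matrix (Fin m) (Fin n) (G →₀ ℂ)) (hT : ∀ i j, (A i j).support ⊆ T) :
    kerDim A = Q23.AS.kT T (W649.ZL.coefT T A) := by
  unfold Q23.AS.kT
  rw [← W649.ZL.kerDimM_eq, W649.ZL.matM_coefT T A hT]
  unfold kerDim W649.ZL.kerDimM
  have h1 : kernel A = W649.ZL.kernM A := rfl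
  rw [h1]

theorem kT_nonneg {G : Type} [Group G] {m n : ℕ} (T : Finset G) (p : T × Fin m × Fin n → ℂ) :
    0 ≤ Q23.AS.kT T p := by
  unfold Q23.AS.kT W649.ZL.kd
  exact W649.ZL.vd_nonneg _

theorem exists_min {ι : Type} [Fintype ι] {K : (ι → ℂ) → ℝ} (hK : Q23.AS.USC K)
    (h0 : ∀ x, 0 ≤ K x) : ∃ x0, ∀ y, K x0 ≤ K y := by
  obtain ⟨x0, hx0, -⟩ := hK.rank_range 0 h0
  exact ⟨x0, hx0⟩

theorem support_bound {G : Type} {m n : ℕ} {R : Type} [Zero R]
    (A : Matrix (Fin m) (Fin n) (G →₀ R)) : ∃ T : Finset G, ∀ i j, (A i j).support ⊆ T := by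
  classical
  refine ⟨Finset.univ.biUnion fun i => Finset.univ.biUnion fun j => (A i j).support, ?_⟩
  intro i j x hx
  exact Finset.mem_biUnion.2 ⟨i, Finset.mem_univ _, Finset.mem_biUnion.2
    ⟨j, Finset.mem_univ _, hx⟩⟩

/-- **The excess inequality.** Let `G` be any group, let `A(z)` be an `m × n` matrix over `ℂ[G]`
whose coefficients are polynomials of degree at most `e` in one complex parameter `z`, and let `v` be
the smallest von Neumann dimension of the kernel of a member (it is attained). Then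
`∑ (dim ker A(z) - v) ≤ e (m - v)`, the sum over any finite set of complex numbers `z`. -/
theorem result (G : Type) [Group G] (m n e : ℕ)
    (A : Matrix (Fin m) (Fin n) (G →₀ Polynomial ℂ)) (hA : ∀ i j g, (A i j g).natDegree ≤ e) :
    ∃ v, IsLeast {r : ℝ | ∃ z : ℂ, kerDim (member A z) = r} v ∧
      ∀ s : Finset ℂ, ∑ z ∈ s, (kerDim (member A z) - v) ≤ e * (m - v) := by
  classical
  obtain ⟨T, hT⟩ := support_bound A
  let A' : T × Fin m × Fin n → MvPolynomial Unit ℂ := fun i =>
    Polynomial.aeval (MvPolynomial.X ()) (A i.2.1 i.2.2 i.1)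
  have h1 : ∀ z : Unit → ℂ, kerDim (member A (z ())) = Q23.AS.kT T
      (fun i => MvPolynomial.aeval z (A' i)) := by
    intro z
    rw [kerDim_eq_kT T]
    · congr 1
      funext i
      show Polynomial.eval (z ()) (A i.2.1 i.2.2 i.1) = _
      rw [← Polynomial.aeval_algHom_apply, MvPolynomial.aeval_X]
      exact (Polynomial.coe_aeval_eq_eval (z ()) ▸ rfl)
    · intro i j
      exact Finsupp.support_mapRange.trans (hT i j)
  obtain ⟨z0, hv⟩ := exists_min ((Q23.AS.usc_kT (m := m) (n := n) T).comp A')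
    (fun z => kT_nonneg T _)
  have hK : ∀ z, kerDim (member A z) = W656.VA.kerDim
      (Q23.AS.mapR (fun p : Polynomial ℂ => p.eval z) Polynomial.eval_zero A) := fun z => rfl
  have hlow : ∀ z, kerDim (member A (z0 ())) ≤ kerDim (member A z) := fun z => by
    rw [h1, h1 fun _ => z]
    exact hv _
  refine ⟨kerDim (member A (z0 ())), ⟨⟨z0 (), rfl⟩, ?_⟩, fun s => ?_⟩
  · rintro _ ⟨z, rfl⟩
    exact hlow z
  · have hinf : ((insert (z0 ()) s : Finset ℂ) : Set ℂ)ᶜ.Infinite :=
      (Finset.finite_toSet _).infinite_compl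
    obtain ⟨s', hs', hcard⟩ := hinf.exists_subset_card_eq e
    have hs2 : ∀ z ∈ s', z ≠ z0 () ∧ z ∉ s := by
      intro z hz
      have h2 := hs' hz
      rw [Set.mem_compl_iff, Finset.mem_coe, Finset.mem_insert, not_or] at h2
      exact h2
    have h3 := Q23.AS.one_parameter A (s.erase (z0 ())) s' (by rw [hcard]; exact hA) (z0 ())
      (Finset.notMem_erase _ _) (fun h => (hs2 _ h).1 rfl)
      (Finset.disjoint_left.2 fun z hz h => (hs2 z hz).2 (Finset.mem_of_mem_erase h))
    simp only [← hK] at h3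
    rw [hcard] at h3
    have h4 : ∑ z ∈ s, (kerDim (member A z) - kerDim (member A (z0 ())))
        = ∑ z ∈ s.erase (z0 ()), (kerDim (member A z) - kerDim (member A (z0 ()))) := by
      by_cases hs : z0 () ∈ s
      · rw [← Finset.add_sum_erase s _ hs, sub_self, zero_add]
      · rw [Finset.erase_eq_of_notMem hs]
    rw [h4]
    have h5 : (e : ℝ) * kerDim (member A (z0 ())) ≤ ∑ z ∈ s', kerDim (member A z) := by
      rw [← hcard, ← nsmul_eq_mul, ← Finset.sum_const]
      exact Finset.sum_le_sum fun z _ => hlow z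
    rw [mul_sub]
    linarith

end Pool.Agent.Results.MP_54e5d7_al.ExcessInequality
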