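import Pool.Agent.Q181.LR.At

set_option autoImplicit false

/-!
# The Atiyah conjecture for classes of groups as a gap in exponentially small windows

The Atiyah conjecture for the groups with bounded torsion in a class which is closed under direct
products and free products with free groups is equivalent to one gap for the kernel dimensions of
integer matrices whose norm is exponentially close to `3 / √2` in terms of their size.
-/

noncomputable section

namespace Pool.Agent.Results.MP_54e5d7_al.WindowGapEquivalence

open TH57.Thr

/-- The kernel of right multiplication by the matrix `A` on `ℓ²(G)^m`. -/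
def kernel {G : Type} [Group G] {m n : ℕ} (A : Matrix (Fin m) (Fin n) (G →₀ ℂ)) :
    Set (lp (fun _ : Fin m × G => ℂ) 2) :=
  {x | ∀ (j : Fin n) (g : G),
    ∑ i : Fin m, (A i j).sum (fun h c => x (i, g * h⁻¹) * c) = 0}

open Classical in
/-- The von Neumann dimension of this kernel: the sum over `i` of one minus the squared distance
from the basis vector at `(i, 1)` to the kernel, that is, the trace of the projection onto the
kernel. -/
def kerDim {G : Type} [Group G] {m n : ℕ} (A : Matrix (Fin m) (Fin n) (G →₀ ℂ)) : ℝ :=
  ∑ i : Fin m, (1 - (Metric.infDist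
    (lp.single 2 (i, (1 : G)) (1 : ℂ) : lp (fun _ : Fin m × G => ℂ) 2) (kernel A)) ^ 2)

/-- An integer matrix as a complex matrix. -/
def complex {G : Type} [Group G] {m n : ℕ} (N : Matrix (Fin m) (Fin n) (MonoidAlgebra ℤ G)) :
    Matrix (Fin m) (Fin n) (G →₀ ℂ) :=
  fun i j => (N i j).coeff.mapRange (fun z : ℤ => (z : ℂ)) Int.cast_zero

/-- The orders of the finite subgroups of `G` are bounded, and `d` is their least common
multiple. -/
def IsLcm (G : Type) [Group G] (d : ℕ) : Prop :=
  (∃ N : ℕ, ∀ H : Subgroup G, Finite H → Nat.card H ≤ N) ∧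
    (∀ H : Subgroup G, Finite H → Nat.card H ∣ d) ∧
    ∀ e : ℕ, (∀ H : Subgroup G, Finite H → Nat.card H ∣ e) → d ∣ e

/-- `NormLE N c` (from `Pool.Agent.TH57.Thr.Defs`): right multiplication by `N` on `ℓ²` has norm at
most `|c|`.

Let `C` be a class of groups which is closed under direct products and under free products with
free groups of finite rank, for example the class of all groups. The Atiyah conjecture over `ℂ`
holds for all groups of `C` with bounded torsion if and only if there are `0 ≤ a < b` such that for
all such groups `G`, with least common multiple `d`, and all `k` there is one `L ≥ 1` such that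
`a < d · dim ker N < b` holds for no integer matrix `N` with at most `k L` rows and columns and
norm at most `3 / √2 + 2 ^ -L` over `G`. -/
theorem result (C : (G : Type) → [Group G] → Prop)
    (hprod : ∀ (G H : Type) [Group G] [Group H], C G → C H → C (G × H))
    (hfree : ∀ (G : Type) [Group G] (m : ℕ), C G → C (Monoid.Coprod G (FreeGroup (Fin m)))) :
    (∀ (G : Type) [Group G], C G → ∀ d : ℕ, IsLcm G d →
      ∀ (m n : ℕ) (A : Matrix (Fin m) (Fin n) (G →₀ ℂ)), ∃ z : ℤ, (d : ℝ) * kerDim A = z) ↔
    ∃ a b : ℝ, 0 ≤ a ∧ a < b ∧ ∀ (G : Type) [Group G], C G → ∀ d : ℕ, IsLcm G d →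
      ∀ k : ℕ, ∃ L : ℕ, 1 ≤ L ∧
      ∀ (m n : ℕ) (N : Matrix (Fin m) (Fin n) (MonoidAlgebra ℤ G)), m ≤ k * L → n ≤ k * L →
        NormLE N (3 / Real.sqrt 2 + (1 / 2) ^ L) →
        ¬ (a < (d : ℝ) * kerDim (complex N) ∧ (d : ℝ) * kerDim (complex N) < b) :=
  Pool.Agent.Q181.LR.window_iff C hprod hfree

end Pool.Agent.Results.MP_54e5d7_al.WindowGapEquivalence
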